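import Pool.Agent.helper84.NR.SpecW

/-!
Row RT0 of project NRW (MP_133bfc_co).
-/

set_option autoImplicit false

namespace Pool.Agent.helper84.NR

open scoped Classical
open Finset

theorem RT0_onv {V F : Type} (M : Cyc V F) {f : F} {e : Sym2 V} (h : OnE M f e) {v : V} (hv : v ∈ e) : OnV M f v := by
  obtain ⟨k, rfl⟩ := h
  rw [Sym2.mem_iff] at hv
  rcases hv with rfl | rfl
  · exact ⟨k, rfl⟩
  · exact ⟨k + 1, rfl⟩

theorem RT0_accon {V F : Type} {M : PMap V F} {x y : V} {A : F} {v : V} {m : ℕ} {a : ℕ → V} (h : Acc M x y A v m a) (k : ℕ)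
    (hk : k ≤ m) : OnV M.toCyc A (a k) := by
  obtain ⟨h1, -, -, -, h5, -, -⟩ := h
  rcases Nat.lt_or_ge k m with h | h
  · exact RT0_onv _ (h5 k h) (Sym2.mem_mk_left _ _)
  · have hkm : k = (m - 1) + 1 := by omega
    rw [hkm]
    exact RT0_onv _ (h5 (m - 1) (by omega)) (Sym2.mem_mk_right _ _)

/-- Glueing two access paths and a walk without vertices on faces at `x` or `y`. -/
theorem RT0_glue {V F : Type} (M : PMap V F) (x y : V)
    (hne : ∀ v A B, OnV M.toCyc A x → OnV M.toCyc A v → OnV M.toCyc B y → ¬ OnV M.toCyc B v)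
    (A B : F) (hAx : OnV M.toCyc A x) (hBy : OnV M.toCyc B y) (L : ℕ) (r : ℕ → V) (hL : 1 ≤ L)
    (hadj : ∀ i, i < L → Adj M.toCyc (r i) (r (i + 1))) (hinj : ∀ i j, i < j → j ≤ L → r i ≠ r j)
    (hrx : ∀ j, 0 < j → j ≤ L → ∀ f, OnV M.toCyc f x → ¬ OnV M.toCyc f (r j))
    (hry : ∀ j, j < L → ∀ f, OnV M.toCyc f y → ¬ OnV M.toCyc f (r j))
    (m m' : ℕ) (a b : ℕ → V) (ha : Acc M x y A (r 0) m a) (hb : Acc M y x B (r L) m' b) : NRXY M.toCyc x y := by
  have haon := RT0_accon ha
  have hbon := RT0_accon hb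
  obtain ⟨a1, a2, a3, a4, a5, a6, a7⟩ := ha
  obtain ⟨b1, b2, b3, b4, b5, b6, b7⟩ := hb
  obtain ⟨q, hq⟩ : ∃ q : ℕ → V, q = fun k => if k ≤ m then a k else if k ≤ m + L then r (k - m) else b (m + L + m' - k) :=
    ⟨_, rfl⟩
  have q1 : ∀ k, k ≤ m → q k = a k := by
    intro k hk
    rw [hq]
    exact if_pos hk
  have q2 : ∀ k, m ≤ k → k ≤ m + L → q k = r (k - m) := by
    intro k hk1 hk2
    rcases Nat.eq_or_lt_of_le hk1 with h | h
    · rw [← h, q1 m le_rfl, a3, Nat.sub_self]
    · rw [hq]
      dsimp only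
      rw [if_neg (by omega), if_pos hk2]
  have q3 : ∀ k, m + L ≤ k → k ≤ m + L + m' → q k = b (m + L + m' - k) := by
    intro k hk1 hk2
    rcases Nat.eq_or_lt_of_le hk1 with h | h
    · rw [q2 k (by omega) (by omega)]
      have e1 : k - m = L := by omega
      have e2 : m + L + m' - k = m' := by omega
      rw [e1, e2, b3]
    · rw [hq]
      dsimp only
      rw [if_neg (by omega), if_neg (by omega)]
  have hA : ∀ k, k ≤ m → OnV M.toCyc A (q k) := by
    intro k hk
    rw [q1 k hk]
    exact haon k hk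
  have hB : ∀ k, m + L ≤ k → k ≤ m + L + m' → OnV M.toCyc B (q k) := by
    intro k hk1 hk2
    rw [q3 k hk1 hk2]
    exact hbon _ (by omega)
  have hMx : ∀ k, m < k → k ≤ m + L + m' → ∀ f, OnV M.toCyc f x → ¬ OnV M.toCyc f (q k) := by
    intro k hk1 hk2 f hf
    rcases Nat.lt_or_ge (m + L) k with h | h
    · intro hfk
      exact hne (q k) f B hf hfk hBy (hB k (by omega) hk2)
    · rw [q2 k (by omega) h]
      exact hrx (k - m) (by omega) (by omega) f hf
  have hMy : ∀ k, k < m + L → ∀ f, OnV M.toCyc f y → ¬ OnV M.toCyc f (q k) := by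
    intro k hk1 f hf
    rcases Nat.lt_or_ge k m with h | h
    · exact hne (q k) A f hAx (hA k (by omega)) hf
    · rw [q2 k h (by omega)]
      exact hry (k - m) (by omega) f hf
  have hinjq : ∀ i j, i < j → j ≤ m + L + m' → q i ≠ q j := by
    intro i j hij hj h
    rcases Nat.lt_or_ge m j with h1 | h1
    · rcases Nat.lt_or_ge m i with h2 | h2
      · rcases Nat.lt_or_ge (m + L) j with h3 | h3
        · rcases Nat.lt_or_ge i (m + L) with h4 | h4
          · have h5 := hMy i h4 B hBy
            rw [h] at h5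
            exact h5 (hB j (by omega) hj)
          · rw [q3 i h4 (by omega), q3 j (by omega) hj] at h
            have := b4 _ _ (by omega) (by omega) h
            omega
        · rw [q2 i (by omega) (by omega), q2 j (by omega) h3] at h
          exact hinj _ _ (by omega) (by omega) h
      · have h3 := hMx j h1 hj A hAx
        rw [← h] at h3
        exact h3 (hA i h2)
    · rw [q1 i (by omega), q1 j h1] at h
      have := a4 i j (by omega) h1 h
      omega
  refine ⟨m + L + m', q, ?_, ?_, ?_, ?_, ?_⟩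
  · rw [q1 0 (by omega), a2]
  · rw [q3 _ (by omega) le_rfl, Nat.sub_self, b2]
  · intro i j hi hj h
    rcases Nat.lt_trichotomy i j with h1 | h1 | h1
    · exact absurd h (hinjq i j h1 hj)
    · exact h1
    · exact absurd h.symm (hinjq j i h1 hi)
  · intro i hi
    rcases Nat.lt_or_ge i m with h | h
    · rw [q1 i (by omega), q1 (i + 1) (by omega)]
      exact ⟨A, a5 i h⟩
    · rcases Nat.lt_or_ge i (m + L) with h1 | h1
      · rw [q2 i h (by omega), q2 (i + 1) (by omega) (by omega)]
        have e1 : i + 1 - m = i - m + 1 := by omega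
        rw [e1]
        exact hadj (i - m) (by omega)
      · rw [q3 i h1 (by omega), q3 (i + 1) (by omega) (by omega)]
        have e1 : m + L + m' - i = (m + L + m' - (i + 1)) + 1 := by omega
        rw [e1]
        refine ⟨B, ?_⟩
        rw [Sym2.eq_swap]
        exact b5 _ (by omega)
  · intro f hf i j hij hj hfi hfj k hik hkj
    rcases hf with hf | hf
    · have hjm : j ≤ m := by
        by_contra hc
        exact hMx j (by omega) hj f hf hfj
      rw [q1 k (by omega), q1 (k + 1) (by omega)]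
      by_cases hfA : f = A
      · rw [hfA]
        exact a5 k (by omega)
      · rw [q1 j hjm] at hfj
        have hj1 := a7 f hf hfA j (by omega) hjm hfj
        have hk0 : k = 0 := by omega
        subst hk0
        subst hj1
        refine (h_EDG V F M).2 f (a 0) (a (0 + 1)) ⟨A, a5 0 (by omega)⟩ ?_ hfj
        rw [a2]
        exact hf
    · have him : m + L ≤ i := by
        by_contra hc
        exact hMy i (by omega) f hf hfi
      rw [q3 k (by omega) (by omega), q3 (k + 1) (by omega) (by omega), Sym2.eq_swap]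
      have e1 : m + L + m' - k = (m + L + m' - (k + 1)) + 1 := by omega
      rw [e1]
      by_cases hfB : f = B
      · rw [hfB]
        exact b5 _ (by omega)
      · rw [q3 i him (by omega)] at hfi
        have hi1 := b7 f hf hfB _ (by omega) (by omega) hfi
        have e2 : m + L + m' - (k + 1) = 0 := by omega
        rw [e2]
        rw [hi1] at hfi
        refine (h_EDG V F M).2 f (b 0) (b (0 + 1)) ⟨B, b5 0 (by omega)⟩ ?_ hfi
        rw [b2]
        exact hf

/-- The walks considered. -/
def RT0_W {V F : Type} (M : PMap V F) (x y : V) (L : ℕ) : Prop :=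
  ∃ (r : ℕ → V) (A B : F), OnV M.toCyc A x ∧ OnV M.toCyc A (r 0) ∧ r 0 ≠ x ∧ OnV M.toCyc B y ∧ OnV M.toCyc B (r L) ∧ r L ≠ y ∧
    ∀ i, i < L → Adj M.toCyc (r i) (r (i + 1))

theorem RT0_exW (hWAL : WAL_stmt) {V F : Type} (M : PMap V F) (x y : V) : ∃ L, RT0_W M x y L := by
  have key : ∀ z : V, ∃ (A : F) (u : V), OnV M.toCyc A z ∧ OnV M.toCyc A u ∧ u ≠ z := by
    intro z
    obtain ⟨A, k, hk⟩ := M.cover z
    refine ⟨A, M.bd A (k + 1), ⟨k, hk⟩, ⟨k + 1, rfl⟩, ?_⟩
    intro h
    exact ((h_EDG V F M).1 A z (M.bd A (k + 1)) ⟨k, by rw [hk]⟩).2.2 h.symm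
  obtain ⟨A, u, h1, h2, h3⟩ := key x
  obtain ⟨B, v, h4, h5, h6⟩ := key y
  obtain ⟨n, r, r0, rn, hr⟩ := hWAL V F M u v
  refine ⟨n, r, A, B, h1, ?_, ?_, h4, ?_, ?_, hr⟩
  · rw [r0]; exact h2
  · rw [r0]; exact h3
  · rw [rn]; exact h5
  · rw [rn]; exact h6

theorem RT0_acc (hRTA : RTA_stmt) {V F : Type} (M : PMap V F) (x y : V)
    (hnf : ∀ f, ¬ (OnV M.toCyc f x ∧ OnV M.toCyc f y))
    (hne : ∀ v A B, OnV M.toCyc A x → OnV M.toCyc A v → OnV M.toCyc B y → ¬ OnV M.toCyc B v)
    (A : F) (v : V) (hA : OnV M.toCyc A x) (hv : OnV M.toCyc A v) (hvx : v ≠ x) : ∃ m a, Acc M x y A v m a := by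
  obtain ⟨-, I2, -, -, -⟩ := h_IDX V F M.toCyc A (st M x A)
  obtain ⟨i, hi, hiv⟩ := I2 v hv
  have h0 := (h_WW0 V F M x A hA).1
  have hi0 : 1 ≤ i := by
    rcases Nat.eq_zero_or_pos i with h | h
    · exfalso
      rw [h] at hiv
      exact hvx (hiv.symm.trans h0)
    · exact h
  have h := hRTA V F M x y A i hnf hA hi0 hi (Or.inl (by
    rintro j _ _ ⟨B, hB, hBj⟩
    exact hne (ww M x A j) A B hA ⟨st M x A + j, rfl⟩ hB hBj))
  have hw : ww M x A i = v := hiv
  rw [hw] at h
  exact h

theorem RT0 (hWAL : WAL_stmt) (hRTA : RTA_stmt) : RT0_stmt := by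
  intro V F M x y hnf hne
  have hex := RT0_exW hWAL M x y
  obtain ⟨L, hLW, hmin⟩ : ∃ L, RT0_W M x y L ∧ ∀ L', L' < L → ¬ RT0_W M x y L' :=
    ⟨Nat.find hex, Nat.find_spec hex, fun L' h => Nat.find_min hex h⟩
  obtain ⟨r, A, B, hA, hA0, h0, hB, hBL, hLy, hadj⟩ := hLW
  have hL : 1 ≤ L := by
    rcases Nat.eq_zero_or_pos L with h | h
    · exfalso
      subst h
      exact hne (r 0) A B hA hA0 hB hBL
    · exact h
  have hon : ∀ u w, Adj M.toCyc u w → u ≠ w ∧ ∃ f, OnV M.toCyc f u ∧ OnV M.toCyc f w := by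
    rintro u w ⟨f, hf⟩
    have := (h_EDG V F M).1 f u w hf
    exact ⟨this.2.2, f, this.1, this.2.1⟩
  have hrx : ∀ j, 0 < j → j ≤ L → ∀ f, OnV M.toCyc f x → ¬ OnV M.toCyc f (r j) := by
    intro j hj1 hj2 f hf hfj
    by_cases hjx : r j = x
    · have hjL : j < L := by
        rcases Nat.lt_or_ge j L with h | h
        · exact h
        · exfalso
          have hjL : j = L := by omega
          rw [← hjL, hjx] at hBL
          exact hnf B ⟨hBL, hB⟩
      obtain ⟨hne', g, hg1, hg2⟩ := hon _ _ (hadj j hjL)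
      rw [hjx] at hne' hg1
      refine hmin (L - (j + 1)) (by omega) ⟨fun k => r (k + (j + 1)), g, B, hg1, ?_, ?_, hB, ?_, ?_, ?_⟩
      · dsimp only
        rw [Nat.zero_add]
        exact hg2
      · dsimp only
        rw [Nat.zero_add]
        exact hne'.symm
      · dsimp only
        rw [Nat.sub_add_cancel (by omega)]
        exact hBL
      · dsimp only
        rw [Nat.sub_add_cancel (by omega)]
        exact hLy
      · intro i hi
        dsimp only
        have e : i + 1 + (j + 1) = i + (j + 1) + 1 := by omega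
        rw [e]
        exact hadj _ (by omega)
    · refine hmin (L - j) (by omega) ⟨fun k => r (k + j), f, B, hf, ?_, ?_, hB, ?_, ?_, ?_⟩
      · dsimp only
        rw [Nat.zero_add]
        exact hfj
      · dsimp only
        rw [Nat.zero_add]
        exact hjx
      · dsimp only
        rw [Nat.sub_add_cancel (by omega)]
        exact hBL
      · dsimp only
        rw [Nat.sub_add_cancel (by omega)]
        exact hLy
      · intro i hi
        dsimp only
        have e : i + 1 + j = i + j + 1 := by omega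
        rw [e]
        exact hadj _ (by omega)
  have hry : ∀ j, j < L → ∀ f, OnV M.toCyc f y → ¬ OnV M.toCyc f (r j) := by
    intro j hj f hf hfj
    by_cases hjy : r j = y
    · have hj0 : 0 < j := by
        rcases Nat.eq_zero_or_pos j with h | h
        · exfalso
          rw [h] at hjy
          rw [hjy] at hA0
          exact hnf A ⟨hA, hA0⟩
        · exact h
      have hadj' := hadj (j - 1) (by omega)
      have e : j - 1 + 1 = j := by omega
      rw [e] at hadj'
      obtain ⟨hne', g, hg1, hg2⟩ := hon _ _ hadj'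
      rw [hjy] at hne' hg2
      exact hmin (j - 1) (by omega) ⟨r, A, g, hA, hA0, h0, hg2, hg1, hne', fun i hi => hadj i (by omega)⟩
    · exact hmin j hj ⟨r, A, f, hA, hA0, h0, hf, hfj, hjy, fun i hi => hadj i (by omega)⟩
  have hinj : ∀ i j, i < j → j ≤ L → r i ≠ r j := by
    intro i j hij hj h
    refine hmin (L - (j - i)) (by omega) ⟨fun k => if k ≤ i then r k else r (k + (j - i)), A, B, hA, ?_, ?_, hB, ?_, ?_, ?_⟩
    · dsimp only
      rw [if_pos (Nat.zero_le _)]
      exact hA0
    · dsimp only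
      rw [if_pos (Nat.zero_le _)]
      exact h0
    · dsimp only
      by_cases hc : L - (j - i) ≤ i
      · rw [if_pos hc]
        have e1 : L - (j - i) = i := by omega
        have e2 : j = L := by omega
        rw [e1, h, e2]
        exact hBL
      · rw [if_neg hc]
        have e1 : L - (j - i) + (j - i) = L := by omega
        rw [e1]
        exact hBL
    · dsimp only
      by_cases hc : L - (j - i) ≤ i
      · rw [if_pos hc]
        have e1 : L - (j - i) = i := by omega
        have e2 : j = L := by omega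
        rw [e1, h, e2]
        exact hLy
      · rw [if_neg hc]
        have e1 : L - (j - i) + (j - i) = L := by omega
        rw [e1]
        exact hLy
    · intro k hk
      dsimp only
      rcases Nat.lt_trichotomy k i with h1 | h1 | h1
      · rw [if_pos (by omega), if_pos (by omega)]
        exact hadj k (by omega)
      · rw [if_pos (by omega), if_neg (by omega), h1, h]
        have e1 : i + 1 + (j - i) = j + 1 := by omega
        rw [e1]
        exact hadj j (by omega)
      · rw [if_neg (by omega), if_neg (by omega)]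
        have e1 : k + 1 + (j - i) = k + (j - i) + 1 := by omega
        rw [e1]
        exact hadj _ (by omega)
  obtain ⟨m, a, ha⟩ := RT0_acc hRTA M x y hnf hne A (r 0) hA hA0 h0
  obtain ⟨m', b, hb⟩ := RT0_acc hRTA M y x (fun f h => hnf f ⟨h.2, h.1⟩)
    (fun v A' B' h1 h2 h3 h4 => hne v B' A' h3 h4 h1 h2) B (r L) hB hBL hLy
  exact RT0_glue M x y hne A B hA hB L r hL hadj hinj hrx hry m m' a b ha hb

end Pool.Agent.helper84.NR
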